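import Pool.Agent.W988.LD.Sharp

/-!
No polynomial of degree at most `D = ω(log n)` weakly separates `G(n,1/2)` from the `q`-colourable
graphs when `q ≥ n ^ (1/2 + ε)`.
-/

set_option autoImplicit false

namespace Pool.Agent.Results.MP_537ba7_lc.NoWeakSeparation

open Filter

/-- Unordered pairs of distinct vertices in `[n]`. -/
abbrev Pair (n : ℕ) : Type := {e : Sym2 (Fin n) // ¬ e.IsDiag}

open Classical in
/-- The `±1` encoding of a graph: `+1` for an edge and `-1` for a non-edge. -/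
noncomputable def enc {n : ℕ} (G : SimpleGraph (Fin n)) : Pair n → ℝ :=
  fun e => if (e : Sym2 (Fin n)) ∈ G.edgeSet then 1 else -1

open Classical in
/-- Expectation of a function of `X` under `G(n,1/2)`, the uniform distribution on graphs on
`[n]`. -/
noncomputable def EQ {n : ℕ} (F : (Pair n → ℝ) → ℝ) : ℝ :=
  (∑ G : SimpleGraph (Fin n), F (enc G)) / Fintype.card (SimpleGraph (Fin n))

/-- The sequence `f` weakly separates `G(n,1/2)` and the `q n`-colourable graphs:
`f ≥ 1` on the colourable graphs, `E f = 0` and `E f ^ 2 = O(1)`, as `n → ∞`. -/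
def WeaklySeparates (q : ℕ → ℕ) (f : ∀ n : ℕ, MvPolynomial (Pair n) ℝ) : Prop :=
  (∀ᶠ n in atTop, ∀ G : SimpleGraph (Fin n), G.Colorable (q n) →
    1 ≤ MvPolynomial.eval (enc G) (f n)) ∧
  (∀ᶠ n in atTop, EQ (fun X => MvPolynomial.eval X (f n)) = 0) ∧
  ∃ C : ℝ, ∀ᶠ n in atTop, EQ (fun X => MvPolynomial.eval X (f n) ^ 2) ≤ C

theorem totalDegree_bind_le {σ τ : Type} (g : σ → MvPolynomial τ ℝ)
    (hg : ∀ s, (g s).totalDegree ≤ 1) (f : MvPolynomial σ ℝ) :
    (MvPolynomial.bind₁ g f).totalDegree ≤ f.totalDegree := by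
  classical
  rw [MvPolynomial.as_sum f, map_sum]
  refine (MvPolynomial.totalDegree_finsetSum_le (d := f.totalDegree) fun m hm => ?_).trans
    (le_of_eq ?_)
  · rw [MvPolynomial.bind₁_monomial]
    refine (MvPolynomial.totalDegree_mul _ _).trans ?_
    rw [MvPolynomial.totalDegree_C, zero_add]
    refine (MvPolynomial.totalDegree_finset_prod _ _).trans ?_
    refine le_trans ?_ (MvPolynomial.le_totalDegree hm)
    refine Finset.sum_le_sum fun s _ => ?_
    refine (MvPolynomial.totalDegree_pow _ _).trans ?_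
    calc m s * (g s).totalDegree ≤ m s * 1 := Nat.mul_le_mul_left _ (hg s)
      _ = m s := mul_one _
  · rw [← MvPolynomial.as_sum f]

/-- Passing from the `±1` variables to the `0, 1` indicators. -/
noncomputable def toInd {n : ℕ} (f : MvPolynomial (Pair n) ℝ) : MvPolynomial (Sym2 (Fin n)) ℝ :=
  MvPolynomial.bind₁ (fun e : Pair n =>
    MvPolynomial.C 2 * MvPolynomial.X (e : Sym2 (Fin n)) - MvPolynomial.C 1) f

theorem toInd_degree {n : ℕ} (f : MvPolynomial (Pair n) ℝ) :
    (toInd f).totalDegree ≤ f.totalDegree := by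
  refine totalDegree_bind_le _ (fun e => ?_) f
  refine (MvPolynomial.totalDegree_sub _ _).trans ?_
  rw [MvPolynomial.totalDegree_C]
  refine max_le ((MvPolynomial.totalDegree_mul _ _).trans ?_) (Nat.zero_le _)
  rw [MvPolynomial.totalDegree_C, MvPolynomial.totalDegree_X]

theorem eval_toInd {n : ℕ} (f : MvPolynomial (Pair n) ℝ) (G : SimpleGraph (Fin n)) :
    MvPolynomial.eval (Pool.Agent.W988.LD.ind G) (toInd f) = MvPolynomial.eval (enc G) f := by
  classical
  unfold toInd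
  rw [← MvPolynomial.coe_aeval_eq_eval, ← MvPolynomial.coe_aeval_eq_eval]
  change MvPolynomial.aeval _ (MvPolynomial.bind₁ _ f) = MvPolynomial.aeval _ f
  rw [MvPolynomial.aeval_bind₁]
  congr 2
  funext e
  simp only [map_sub, map_mul, MvPolynomial.aeval_C, MvPolynomial.aeval_X, map_one]
  unfold Pool.Agent.W988.LD.ind enc
  split_ifs with h
  · norm_num
  · norm_num

/-- The trade-off between the number of colours and the degree. -/
theorem tradeoff (q D : ℕ → ℕ)
    (hq : ∀ᶠ n : ℕ in atTop, Real.sqrt n * Real.exp (14 * Real.sqrt (Real.log n)) ≤ q n)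
    (hD : ∀ᶠ n : ℕ in atTop, 1024 * (D n : ℝ) ≤ Real.log (q n / Real.sqrt n) ^ 2) :
    ¬ ∃ f : ∀ n : ℕ, MvPolynomial (Pair n) ℝ,
      (∀ n, (f n).totalDegree ≤ D n) ∧ WeaklySeparates q f := by
  classical
  rintro ⟨f, hdeg, hf1, hf2, C, hf3⟩
  obtain ⟨n₀, hn₀⟩ := Pool.Agent.W988.LD.sharp
  have hlog : Tendsto (fun n : ℕ => Real.exp (14 * Real.sqrt (Real.log n))) atTop atTop := by
    refine Real.tendsto_exp_atTop.comp (Tendsto.const_mul_atTop (by norm_num) ?_)
    exact Real.tendsto_sqrt_atTop.comp (Real.tendsto_log_atTop.comp tendsto_natCast_atTop_atTop)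
  have hbig := hlog.eventually (eventually_gt_atTop |C|)
  obtain ⟨n, hq, hD, h1, h2, h3, hbig, hn, hn1⟩ := (hq.and (hD.and (hf1.and (hf2.and (hf3.and
    (hbig.and ((eventually_ge_atTop n₀).and (eventually_ge_atTop 1)))))))).exists
  obtain ⟨μ, hμ0, hμ1, hμc, hμp⟩ := hn₀ n hn (q n) (D n) hq hD
  have h4 := hμp (toInd (f n)) ((toInd_degree _).trans (hdeg n))
  simp only [eval_toInd] at h4
  have h5 : Pool.Agent.W988.LD.avg
      (fun G : SimpleGraph (Fin n) => MvPolynomial.eval (enc G) (f n)) = 0 := by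
    have := h2
    unfold EQ at this
    unfold Pool.Agent.W988.LD.avg
    convert this using 2
  have h6 : Pool.Agent.W988.LD.avg
      (fun G : SimpleGraph (Fin n) => MvPolynomial.eval (enc G) (f n) ^ 2) ≤ C := by
    have := h3
    unfold EQ at this
    unfold Pool.Agent.W988.LD.avg
    convert this using 2
  have h7 : 1 ≤ ∑ G, μ G * MvPolynomial.eval (enc G) (f n) := by
    rw [← hμ1]
    refine Finset.sum_le_sum fun G _ => ?_
    by_cases hG : μ G = 0
    · rw [hG]; simp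
    · calc μ G = μ G * 1 := (mul_one _).symm
        _ ≤ μ G * MvPolynomial.eval (enc G) (f n) :=
          mul_le_mul_of_nonneg_left (h1 G (hμc G hG)) (hμ0 G)
  rw [h5, sub_zero, zero_pow (by norm_num), sub_zero] at h4
  have hsq : 0 < Real.sqrt n := Real.sqrt_pos.2 (by exact_mod_cast hn1)
  have hexp : 0 < Real.exp (14 * Real.sqrt (Real.log n)) := Real.exp_pos _
  have hqpos : (0 : ℝ) < q n := lt_of_lt_of_le (mul_pos hsq hexp) hq
  have h8 : (1 : ℝ) ≤ (∑ G, μ G * MvPolynomial.eval (enc G) (f n)) ^ 2 := one_le_pow₀ h7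
  have h9 : (1 : ℝ) ≤ Real.sqrt n / q n * |C| :=
    h8.trans (h4.trans (mul_le_mul_of_nonneg_left (h6.trans (le_abs_self C)) (by positivity)))
  rw [div_mul_eq_mul_div, le_div_iff₀ hqpos, one_mul] at h9
  have h10 : Real.sqrt n * |C| < Real.sqrt n * Real.exp (14 * Real.sqrt (Real.log n)) :=
    mul_lt_mul_of_pos_left hbig hsq
  linarith

theorem result :
    (∀ ε : ℝ, 0 < ε → ∀ q : ℕ → ℕ,
      (∀ᶠ n : ℕ in atTop, (n : ℝ) ^ (1 / 2 + ε) ≤ q n) →
      ∃ D : ℕ → ℕ, Tendsto (fun n : ℕ => (D n : ℝ) / Real.log n) atTop atTop ∧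
        ¬ ∃ f : ∀ n : ℕ, MvPolynomial (Pair n) ℝ,
          (∀ n, (f n).totalDegree ≤ D n) ∧ WeaklySeparates q f) ∧
    ∀ q D : ℕ → ℕ,
      (∀ᶠ n : ℕ in atTop, Real.sqrt n * Real.exp (14 * Real.sqrt (Real.log n)) ≤ q n) →
      (∀ᶠ n : ℕ in atTop, 1024 * (D n : ℝ) ≤ Real.log (q n / Real.sqrt n) ^ 2) →
      ¬ ∃ f : ∀ n : ℕ, MvPolynomial (Pair n) ℝ,
        (∀ n, (f n).totalDegree ≤ D n) ∧ WeaklySeparates q f := by
  refine ⟨fun ε hε q hq => ?_, tradeoff⟩
  have hlog : Tendsto (fun n : ℕ => Real.log n) atTop atTop :=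
    Real.tendsto_log_atTop.comp tendsto_natCast_atTop_atTop
  refine ⟨fun n => ⌊(ε * Real.log n) ^ 2 / 1024⌋₊, ?_, tradeoff q _ ?_ ?_⟩
  · have h1 : Tendsto (fun n : ℕ => ε ^ 2 / 1024 * Real.log n - 1) atTop atTop :=
      tendsto_atTop_add_const_right _ _ (hlog.const_mul_atTop (by positivity))
    refine tendsto_atTop_mono' _ ?_ h1
    filter_upwards [hlog.eventually (eventually_ge_atTop 1)] with n hn
    have h2 : (ε * Real.log n) ^ 2 / 1024 < ⌊(ε * Real.log n) ^ 2 / 1024⌋₊ + 1 :=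
      Nat.lt_floor_add_one _
    rw [le_div_iff₀ (by linarith)]
    have h3 : (ε ^ 2 / 1024 * Real.log n - 1) * Real.log n =
        (ε * Real.log n) ^ 2 / 1024 - Real.log n := by ring
    rw [h3]
    linarith
  · have h1 : ∀ᶠ n : ℕ in atTop, (14 / ε) ^ 2 ≤ Real.log n :=
      hlog.eventually (eventually_ge_atTop _)
    filter_upwards [hq, h1, eventually_ge_atTop 2] with n h2 h3 h4
    have hnpos : (0 : ℝ) < n := by
      have : 0 < n := by omega
      exact_mod_cast this
    have hL : 0 < Real.log n := Real.log_pos (by exact_mod_cast (by omega : 1 < n))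
    refine le_trans ?_ h2
    have h5 : (n : ℝ) ^ (1 / 2 + ε) = Real.sqrt n * Real.exp (Real.log n * ε) := by
      rw [Real.rpow_add hnpos, ← Real.sqrt_eq_rpow, Real.rpow_def_of_pos hnpos ε]
    rw [h5]
    refine mul_le_mul_of_nonneg_left (Real.exp_le_exp.2 ?_) (Real.sqrt_nonneg _)
    have h6 : 14 / ε ≤ Real.sqrt (Real.log n) := Real.le_sqrt_of_sq_le h3
    have h7 : Real.sqrt (Real.log n) * Real.sqrt (Real.log n) = Real.log n :=
      Real.mul_self_sqrt hL.le
    have h8 : 14 ≤ Real.sqrt (Real.log n) * ε := (div_le_iff₀ hε).1 h6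
    nlinarith [Real.sqrt_nonneg (Real.log n)]
  · filter_upwards [hq, eventually_ge_atTop 2] with n h2 h4
    have hnpos : (0 : ℝ) < n := by
      have : 0 < n := by omega
      exact_mod_cast this
    have hL : 0 < Real.log n := Real.log_pos (by exact_mod_cast (by omega : 1 < n))
    have hs : 0 < Real.sqrt n := Real.sqrt_pos.2 hnpos
    have h5 : (n : ℝ) ^ (1 / 2 + ε) = Real.sqrt n * Real.exp (Real.log n * ε) := by
      rw [Real.rpow_add hnpos, ← Real.sqrt_eq_rpow, Real.rpow_def_of_pos hnpos ε]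
    have h6 : Real.exp (Real.log n * ε) ≤ q n / Real.sqrt n := by
      rw [le_div_iff₀ hs, mul_comm, ← h5]
      exact h2
    have h7 : Real.log n * ε ≤ Real.log (q n / Real.sqrt n) := by
      rw [Real.le_log_iff_exp_le (lt_of_lt_of_le (Real.exp_pos _) h6)]
      exact h6
    have h8 : ((⌊(ε * Real.log n) ^ 2 / 1024⌋₊ : ℕ) : ℝ) ≤ (ε * Real.log n) ^ 2 / 1024 :=
      Nat.floor_le (by positivity)
    have h9 : (Real.log n * ε) ^ 2 ≤ Real.log (q n / Real.sqrt n) ^ 2 :=
      pow_le_pow_left₀ (by positivity) h7 2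
    have h10 : (ε * Real.log n) ^ 2 = (Real.log n * ε) ^ 2 := by ring
    rw [h10] at h8
    rw [h10]
    linarith

end Pool.Agent.Results.MP_537ba7_lc.NoWeakSeparation
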